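import Mathlib
import Pool.Agent.Lib.MP_37ca1f_al.Main

set_option autoImplicit false

namespace Pool.Agent.Results.MP_37ca1f_al.Malykhin

/-- A topological group on which infinitely many free ultrafilters (ultrafilters whose members have
empty intersection) converge to the identity is the union of two disjoint dense sets. -/
theorem result :
    ∀ (G : Type) [Group G] [TopologicalSpace G] [IsTopologicalGroup G],
      Set.Infinite {p : Ultrafilter G | (⋂₀ {A : Set G | A ∈ p}) = ∅ ∧ ∀ V ∈ nhds (1 : G), V ∈ p} →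
        ∃ A₁ A₂ : Set G, A₁ ∪ A₂ = Set.univ ∧ A₁ ∩ A₂ = ∅ ∧ Dense A₁ ∧ Dense A₂ := by
  intro G _ _ _ hS
  have hS' : Set.Infinite {p : Ultrafilter G |
      (p : Filter G) ≤ Filter.cofinite ∧ (p : Filter G) ≤ nhds 1} := by
    refine hS.mono ?_
    rintro p ⟨h1, h2⟩
    refine ⟨?_, fun V hV => h2 V hV⟩
    rcases p.le_cofinite_or_eq_pure with h | ⟨a, rfl⟩
    · exact h
    · have : a ∈ ⋂₀ {A : Set G | A ∈ (pure a : Ultrafilter G)} := fun A hA => hA
      rw [h1] at this
      exact this.elim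
  obtain ⟨A, hA1, hA2⟩ := (Pool.Agent.Lib.MP_37ca1f_al.res_main hS').dense
  exact ⟨A, Aᶜ, Set.union_compl_self A, Set.inter_compl_self A, hA1, hA2⟩

end Pool.Agent.Results.MP_37ca1f_al.Malykhin
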