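import Mathlib
import Pool.Agent.Lib.MP_37ca1f_al.Main

set_option autoImplicit false

namespace Pool.Agent.Results.MP_37ca1f_al.Uncountable

/-- A topological group in which no neighbourhood of the identity is countable is the union of two
disjoint dense sets. -/
theorem result :
    ∀ (G : Type) [Group G] [TopologicalSpace G] [IsTopologicalGroup G],
      (∀ V ∈ nhds (1 : G), ¬ V.Countable) →
        ∃ A₁ A₂ : Set G, A₁ ∪ A₂ = Set.univ ∧ A₁ ∩ A₂ = ∅ ∧ Dense A₁ ∧ Dense A₂ := by
  intro G _ _ _ h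
  obtain ⟨A, hA1, hA2⟩ := (Pool.Agent.Lib.MP_37ca1f_al.res_of_uncountable_nhds h).dense
  exact ⟨A, Aᶜ, Set.union_compl_self A, Set.inter_compl_self A, hA1, hA2⟩

end Pool.Agent.Results.MP_37ca1f_al.Uncountable
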